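import Pool.Agent.DPF.StmtsF
import Pool.Agent.Helper56_DPF.CNT
import Pool.Agent.Helper17_DPF.DGB
import Pool.Agent.Helper60_DPF.SPL
import Pool.Agent.Helper32_DPF.SUM
import Pool.Agent.Helper48_DPF.CMP
import Pool.Agent.Helper94_DPF.CFL
import Pool.Agent.Helper92_DPF.NEW
import Pool.Agent.Helper60_DPF.INC
import Pool.Agent.Helper81_DPF.SLP
import Pool.Agent.Helper39_DPF.SEF
import Pool.Agent.Helper3_DPF.GAI
import Pool.Agent.Helper41_DPF.EXT
import Pool.Agent.Helper15_DPF.STP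
import Pool.Agent.Helper10_DPF.SHU
import Pool.Agent.Helper20_DPF.SHL
import Pool.Agent.Helper19_DPF.SHF
import Pool.Agent.Helper88_DPF.Ste
import Pool.Agent.Helper41_DPF.End
import Pool.Agent.Helper46_DPF.UNI
import Pool.Agent.Helper10_DPF.TRV
import Pool.Agent.Helper27_DPF.RED
import Pool.Agent.Helper60_DPF.N1

/-!
Assembly of the squad DPF (MP_d97b4e_co): the descent.
-/

namespace Pool.Agent.DPF.H59

open Finset Pool.Agent.DPS

theorem dga' : DGAStmt := H56.dga H56.cnt

theorem dgb' : DGBStmt := H17.dgb H56.cnt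

theorem sum' : SUMStmt := H32.sum dga' dgb' H60.spl

theorem gai' : GAIStmt := H3.gai H39.sef H81.slp

theorem stp' : STPStmt :=
  H15.stp sum' (H48.cmp dgb') H94.cfl H17.mnb H81.jns H39.sef gai' (H41.ext H17.mnb)

theorem clo' : CLOStmt := H94.clo H10.shu H20.shl H19.shf

theorem ste' : STEStmt := H88.ste clo' H94.cfl (H92.new H94.cfl) H60.inc stp'

theorem dsc' : DSCStmt := H41.dsc ste' (H41.end_ H60.inc) H60.inc

/-- RUL from the numeric statements. -/
theorem rul_of (hRCN : RCNStmt) {t : ℕ} (ht : 1 ≤ t)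
    (h : ∀ k L : ℕ, t < k → t + 2 ≤ L → L + t + 1 ≤ 2 * k → NumL k t L) : RULStmt t := by
  refine H27.red H46.uni hRCN H10.trv t ht (fun k L hk hL hL2 => ?_)
  rcases Nat.lt_or_ge L (t + 2) with h1 | h1
  · have e : L = t + 1 := by omega
    subst e
    exact H60.n1 k t ht hk
  · exact h k L hk h1 hL2

end Pool.Agent.DPF.H59
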