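import Mathlib

/-!
Squad DPF: the polynomial inequalities of the final step (all degree levels, t ≥ 3).
`h = 2N = L - t + 1`, `b = a + 1`, `lam = L - a`, `μ = h + 1 - lam`.
-/

namespace Pool.Agent.DPF.H59

/-- Case II: `μ ≥ lam ≥ 2`. -/
theorem poly2 (t lam μ : ℝ) (ht : 3 ≤ t) (hl : 2 ≤ lam) (hm : lam ≤ μ) :
    (μ + lam - 1 + t - 1 + 1) * ((μ + lam - 1 + t - 1) *
        ((t - 1) ^ 2 * μ * (μ + lam - 1) / 2 +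
          (t + 1) * ((μ + lam - 1) * μ + (lam - 1) * (t - 1)))) * μ ≤
      (t + 1) ^ 3 * lam * (μ + lam - 1) ^ 2 / 4 * μ * (μ + t - 1) +
        (t + 1) * (μ - (μ + lam - 1) / 2) * ((μ + lam - 1 + t - 1) *
        ((t - 1) ^ 2 * μ * (μ + lam - 1) / 2 +
          (t + 1) * ((μ + lam - 1) * μ + (lam - 1) * (t - 1)))) * (μ + t - 1) := by
  obtain ⟨T, hT, rfl⟩ : ∃ T : ℝ, 0 ≤ T ∧ t = 3 + T := ⟨t - 3, by linarith, by ring⟩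
  obtain ⟨l, hl0, rfl⟩ : ∃ l : ℝ, 0 ≤ l ∧ lam = 2 + l := ⟨lam - 2, by linarith, by ring⟩
  obtain ⟨v, hv, rfl⟩ : ∃ v : ℝ, 0 ≤ v ∧ μ = 2 + l + v := ⟨μ - 2 - l, by linarith, by ring⟩
  rw [← sub_nonneg]
  ring_nf
  positivity

/-- Case Ia, `μ = 1`. -/
theorem polyIa1 (t h : ℝ) (ht : 3 ≤ t) (hh : 3 ≤ h) :
    0 ≤ (t + 1) ^ 3 * h ^ 2 * h * t - (h + t - 1) * (h + t) *
        (4 * (t + 1) * (h + (h - 1) * (t - 1)) + 2 * (t - 1) ^ 2 * h * (h - 1)) +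
      (2 * (t - 1) * (h - 3) ^ 2 + 4 * (h - 3)) *
        ((t - 1) * (h - 2) * (h - 1) - (t + 1) * h * t) := by
  obtain ⟨T, hT, rfl⟩ : ∃ T : ℝ, 0 ≤ T ∧ t = 3 + T := ⟨t - 3, by linarith, by ring⟩
  obtain ⟨w, hw, rfl⟩ : ∃ w : ℝ, 0 ≤ w ∧ h = 3 + w := ⟨h - 3, by linarith, by ring⟩
  ring_nf
  positivity

/-- Case Ia, `μ ≥ 2`. -/
theorem polyIa2 (t h μ : ℝ) (ht : 3 ≤ t) (hm : 2 ≤ μ) (hh : 2 * μ ≤ h) :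
    0 ≤ (t + 1) ^ 3 * h ^ 2 * (h + 1 - μ) * (μ + t - 1) - (h + t - 1) * (h + t) *
        (4 * (t + 1) * (h * μ + (h - μ) * (t - 1)) + 2 * (t - 1) ^ 2 * h * (h - μ)) +
      (2 * (t - 1) * (h - 2 * μ) ^ 2) *
        ((t - 1) * (h - 2) * (h - μ) - (t + 1) * h * (μ + t - 1)) := by
  obtain ⟨T, hT, rfl⟩ : ∃ T : ℝ, 0 ≤ T ∧ t = 3 + T := ⟨t - 3, by linarith, by ring⟩
  obtain ⟨m, hm0, rfl⟩ : ∃ m : ℝ, 0 ≤ m ∧ μ = 2 + m := ⟨μ - 2, by linarith, by ring⟩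
  obtain ⟨w, hw, rfl⟩ : ∃ w : ℝ, 0 ≤ w ∧ h = 4 + 2 * m + w := ⟨h - 4 - 2 * m, by linarith, by ring⟩
  ring_nf
  positivity

/-- Case Ic, `b ≥ 2`. -/
theorem polyIc2 (t h b : ℝ) (hb : 2 ≤ b) (ht : b + 1 ≤ t) (hh : 3 ≤ h) :
    0 ≤ (t + 1) ^ 3 * h ^ 3 * (h + t - b) * b - (h + t - 1) * (h + t) *
        (2 * (h - 1) * ((t - 1) * (h - 2) + 2 * b) ^ 2 + 4 * b * (h + t - b - 1) * (t + 1) * h) +
      (68 * (h - 3) + 32 * (h - 3) ^ 2 + 4 * (h - 3) ^ 3 + 8 * (b - 2) * (h - 3) ^ 2 +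
          2 * (b - 2) * (h - 3) ^ 3 + 16 * (t - b - 1) * (h - 3) ^ 2 +
          2 * (t - b - 1) * (h - 3) ^ 3 + 2 * (t - b - 1) ^ 2 * (h - 3) ^ 2) *
        ((t - 1) * (h - 2) * (h - 1) - b * (t + 1) * h) := by
  obtain ⟨m, hm0, rfl⟩ : ∃ m : ℝ, 0 ≤ m ∧ b = 2 + m := ⟨b - 2, by linarith, by ring⟩
  obtain ⟨T, hT, rfl⟩ : ∃ T : ℝ, 0 ≤ T ∧ t = 3 + m + T := ⟨t - 3 - m, by linarith, by ring⟩
  obtain ⟨w, hw, rfl⟩ : ∃ w : ℝ, 0 ≤ w ∧ h = 3 + w := ⟨h - 3, by linarith, by ring⟩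
  ring_nf
  positivity

/-- Case Ic, `b = 1`. -/
theorem polyIc1 (t h : ℝ) (ht : 3 ≤ t) (hh : 3 ≤ h) :
    0 ≤ (t + 1) ^ 3 * h ^ 3 * (h + t - 1) - (h + t - 1) * (h + t) *
        (2 * (h - 1) * ((t - 1) * (h - 2) + 2) ^ 2 + 4 * (h + t - 2) * (t + 1) * h) +
      (104 * (h - 3) + 40 * (h - 3) ^ 2 + 4 * (h - 3) ^ 3 +
          (t - 3) * (50 * (h - 3) + 24 * (h - 3) ^ 2 + 2 * (h - 3) ^ 3) +
          (t - 3) ^ 2 * (14 * (h - 3) + 3 * (h - 3) ^ 2) + (t - 3) ^ 3 * (h - 3)) *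
        ((t - 1) * (h - 2) * (h - 1) - (t + 1) * h) := by
  obtain ⟨T, hT, rfl⟩ : ∃ T : ℝ, 0 ≤ T ∧ t = 3 + T := ⟨t - 3, by linarith, by ring⟩
  obtain ⟨w, hw, rfl⟩ : ∃ w : ℝ, 0 ≤ w ∧ h = 3 + w := ⟨h - 3, by linarith, by ring⟩
  ring_nf
  positivity

end Pool.Agent.DPF.H59
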