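import Pool.Agent.Helper59_DPF.AllF
import Pool.Agent.Helper59_DPL.T1
import Pool.Agent.DPF.StmtsM
import Pool.Agent.Helper69_DPF.Rcn
import Pool.Agent.Helper99_DPF.FQ1
import Pool.Agent.Helper99_DPF.FQ2
import Pool.Agent.Helper39_DPF.WTS
import Pool.Agent.Helper56_DPF.STA
import Pool.Agent.Helper92_DPF.OKD
import Pool.Agent.Helper92_DPF.COE
import Pool.Agent.Helper3_DPF.SPA
import Pool.Agent.Helper76_DPF.SPB
import Pool.Agent.Helper60_DPF.NMA
import Pool.Agent.Helper70_DPF.FNA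

/-!
Final assembly of the squad DPF: the numeric part, and from `Lam` to the power sums.
-/

namespace Pool.Agent.DPF.H59

open Finset Pool.Agent.DPS

theorem fac' : FACStmt := H56.fac H56.del'

theorem coe' : COEStmt := H92.coe H39.wts H56.sta H56.del' fac'

theorem nma_of (hY : YPTStmt) : NMAStmt :=
  H60.nma (H92.okd H56.del' fac') hY (H3.spa H39.wts H56.sta H56.del' fac')
    (H76.spb H39.wts H56.sta H56.del' fac') H99.fq1 H99.fq2

theorem fna_of (hY : YPTStmt) : FNAStmt :=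
  H70.fna (H27.red H46.uni H69.rcn H10.trv) H60.n1 (nma_of hY) dsc'

/-- From the truncated squares to the power sums. -/
theorem ell_le {n r : ℕ} {F G : Finset (Finset (Fin n))} (h : ∀ θ : ℝ, Lam r θ F ≤ Lam r θ G)
    {p : ℝ} (hp : 2 ≤ p) : ell r p F ≤ ell r p G :=
  Pool.Agent.DPL.H89.pwr (Finset (Fin n)) (powersetCard r (univ : Finset (Fin n)))
    (fun R => (degree F R : ℝ)) (fun R => (degree G R : ℝ)) p hp
    (fun _ _ => Nat.cast_nonneg _) (fun _ _ => Nat.cast_nonneg _) (fun μ _ => h μ)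

/-- `t ≥ 3`: all the levels. -/
theorem ell_star (hF : FNAStmt) {n k t r : ℕ} (ht : 3 ≤ t) (hk : t ≤ k)
    (hn : (t + 1) * (k - t + 1) ≤ n) {p : ℝ} (hp : 2 ≤ p)
    (A : Finset (Finset (Fin n))) (hA : A ⊆ powersetCard k univ) (hT : TInt t A)
    (T : Finset (Fin n)) (hTc : T.card = t) : ell r p A ≤ ell r p (fullStar k T) := by
  rcases Nat.lt_or_ge t k with h1 | h1
  · exact ell_le (fun θ => hF n k t r θ ht h1 hn A hA hT T hTc) hp
  · have e : k = t := le_antisymm h1 hk
    subst e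
    exact Pool.Agent.DPL.H59.eqcase (by linarith) A hA hT T hTc

/-- Q1: all `1 ≤ t ≤ k`, `r ≤ k - 1`, `n ≥ (t + 1)(k - t + 1)`, real `p ≥ 2`. -/
theorem full_of (hY : YPTStmt) {n k t r : ℕ} (ht : 1 ≤ t) (hk : t ≤ k)
    (hr : r + 1 ≤ k) (hn : (t + 1) * (k - t + 1) ≤ n) {p : ℝ} (hp : 2 ≤ p)
    (A : Finset (Finset (Fin n))) (hA : A ⊆ powersetCard k univ) (hT : TInt t A)
    (T : Finset (Fin n)) (hTc : T.card = t) : ell r p A ≤ ell r p (fullStar k T) := by
  rcases Nat.lt_or_ge t 3 with h3 | h3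
  · rcases (show t = 1 ∨ t = 2 by omega) with e | e
    · subst e
      refine Pool.Agent.DPL.H59.final1 n k r hr ?_ p hp A hA hT T hTc
      have e : k - 1 + 1 = k := by omega
      rw [e] at hn
      omega
    · subst e
      refine Pool.Agent.DPL.H59.finalC1 n k r hr ?_ p hp A hA hT T hTc hk
      have e : k - 2 + 1 = k - 1 := by omega
      rw [e] at hn
      exact hn
  · exact ell_star (fna_of hY) h3 hk hn hp A hA hT T hTc

end Pool.Agent.DPF.H59
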