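import Pool.Agent.Helper59_DPF.FinF
import Pool.Agent.Helper56_DPF.YPT

/-!
The squads DPL and DPF: the full answer to Q1 of MP_d97b4e_co, no hypotheses left.
-/

namespace Pool.Agent.DPF.H59

open Finset Pool.Agent.DPS

theorem ypt' : YPTStmt := H56.ypt H39.wts H56.del' coe'

/-- Q1: all `1 ≤ t ≤ k`, `r ≤ k - 1`, `n ≥ (t + 1)(k - t + 1)`, real `p ≥ 2`. -/
theorem full {n k t r : ℕ} (ht : 1 ≤ t) (hk : t ≤ k)
    (hr : r + 1 ≤ k) (hn : (t + 1) * (k - t + 1) ≤ n) {p : ℝ} (hp : 2 ≤ p)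
    (A : Finset (Finset (Fin n))) (hA : A ⊆ powersetCard k univ) (hT : TInt t A)
    (T : Finset (Fin n)) (hTc : T.card = t) : ell r p A ≤ ell r p (fullStar k T) :=
  full_of ypt' ht hk hr hn hp A hA hT T hTc

end Pool.Agent.DPF.H59
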